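import Pool.Agent.Lib.helper20.TMRatio

namespace Pool.Agent.Results.MP_e68cb8_nt.Q1

open Pool.Agent.Lib.helper20.TMFib

theorem result (n : ℕ) (hn : 4 ≤ n) : (2 / 7 : ℚ) * |(h (n - 1) : ℚ)| ≤ |(h n : ℚ)| := by
  have key : 2 * (h (n - 1)).natAbs ≤ 7 * (h n).natAbs := by
    by_cases h16 : n < 16
    · rw [small n h16, small (n - 1) (by omega)]
      interval_cases n <;> decide
    · have := ratio (n - 1) (by omega)
      rw [show n - 1 + 1 = n by omega] at this
      omega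
  have k2 : (2 : ℚ) * ((h (n - 1)).natAbs : ℚ) ≤ 7 * ((h n).natAbs : ℚ) := by exact_mod_cast key
  rw [Nat.cast_natAbs, Nat.cast_natAbs, Int.cast_abs, Int.cast_abs] at k2
  linarith

end Pool.Agent.Results.MP_e68cb8_nt.Q1
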