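import Pool.Agent.Lib.helper20.TMRatio

namespace Pool.Agent.Results.MP_e68cb8_nt.Q2

open Pool.Agent.Lib.helper20.TMFib Filter

/-- `ρ n = |h n| / |h (n - 1)|`. -/
noncomputable def rho (n : ℕ) : ℝ := |(h n : ℝ)| / |(h (n - 1) : ℝ)|

/-- `C k i` is the lower limit of `ρ (2 ^ k * n + i + 1)` as `n → ∞`, in the extended reals. -/
noncomputable def C (k i : ℕ) : EReal :=
  liminf (fun n : ℕ => ((rho (2 ^ k * n + i + 1) : ℝ) : EReal)) atTop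

lemma lower (k i : ℕ) : ((29 / 100 : ℝ) : EReal) ≤ C k i := by
  refine le_liminf_of_le (by isBoundedDefault) (eventually_atTop.mpr ⟨15, fun n hn => ?_⟩)
  have hp : 1 ≤ 2 ^ k := Nat.one_le_two_pow
  have hm : 15 ≤ 2 ^ k * n + i := by nlinarith
  generalize 2 ^ k * n + i = m at *
  rw [EReal.coe_le_coe_iff]
  unfold rho
  rw [Nat.add_sub_cancel]
  have h1 := ratio m hm
  have h2 : h m ≠ 0 := by
    have := h_ne (m - 15)
    rwa [show m - 15 + 15 = m by omega] at this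
  have h3 : (0 : ℝ) < |(h m : ℝ)| := abs_pos.mpr (by exact_mod_cast h2)
  have k2 : (29 : ℝ) * ((h m).natAbs : ℝ) ≤ 100 * ((h (m + 1)).natAbs : ℝ) := by
    exact_mod_cast h1
  rw [Nat.cast_natAbs, Nat.cast_natAbs, Int.cast_abs, Int.cast_abs] at k2
  rw [le_div_iff₀ h3]
  linarith

theorem result : (∀ k i : ℕ, ((29 / 100 : ℝ) : EReal) ≤ C k i) ∧
    ¬ ((∀ k : ℕ, 1 ≤ k → ∀ i < 2 ^ k, ∃ q : ℚ, C k i = ((q : ℝ) : EReal) ∧
        ∀ n : ℕ, 4 ≤ 2 ^ k * n + i →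
          q * |(h (2 ^ k * n + i) : ℚ)| ≤ |(h (2 ^ k * n + i + 1) : ℚ)|) ∧
      (∀ k : ℕ, 1 ≤ k → C (2 * k) 0 = C (2 * k + 1) 0) ∧
      C 1 0 = ((2 / 7 : ℝ) : EReal) ∧
      C 2 0 = ((2 / 3 : ℝ) : EReal) ∧ C 3 0 = ((2 / 3 : ℝ) : EReal) ∧
      C 4 0 = ((64 / 83 : ℝ) : EReal) ∧ C 5 0 = ((64 / 83 : ℝ) : EReal) ∧
      C 6 0 = ((52071130 / 67519091 : ℝ) : EReal) ∧
      C 7 0 = ((52071130 / 67519091 : ℝ) : EReal)) := by
  refine ⟨lower, fun hq => ?_⟩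
  have h1 := lower 1 0
  rw [hq.2.2.1, EReal.coe_le_coe_iff] at h1
  norm_num at h1

end Pool.Agent.Results.MP_e68cb8_nt.Q2
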